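import Pool.Agent.helper32.EX.SpecA

set_option autoImplicit false

namespace Pool.Agent.EX

theorem DES : DES_stmt := by
  intro n C hC α hpos hne
  by_contra hcon
  push Not at hcon
  have h1 : Q C α.1 α.1 ≤ 0 := by
    rw [Q_expand]
    refine Finset.sum_nonpos fun i _ => ?_
    refine mul_nonpos_of_nonneg_of_nonpos (hpos i) ?_
    by_contra h2
    push Not at h2
    have h3 := bd (C := C) α (sm C i)
    have h4 := hcon i
    have h5 : Q C α.1 (sm C i).1 = 2 := by omega
    exact hne i (Q_eq_two h5).symm
  rw [α.2] at h1
  omega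

end Pool.Agent.EX
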