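import Pool.Agent.helper32.EX.SpecA

set_option autoImplicit false

namespace Pool.Agent.EX

theorem GCJ_inv {n : ℕ} {C : Matrix (Fin n) (Fin n) ℤ} {F : Type} [Field F] (g : LV C F ≃ₗ[F] LV C F) (v : LV C F) :
    g (g⁻¹ v) = v := by
  have h : (g * g⁻¹) v = v := by rw [mul_inv_cancel]; rfl
  exact h

theorem GCJ_one (hGAU : GAU_stmt) {n : ℕ} (C : Matrix (Fin n) (Fin n) ℤ) [hC : Fact (Dyn C)] (F : Type) [Field F]
    (g : LV C F ≃ₗ[F] LV C F) (hg : g ∈ EG C F) (w v : LV C F) : g (ex w (g⁻¹ v)) = ex (g w) v := by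
  obtain ⟨h1, h2⟩ := hGAU C F g hg
  simp only [ex, map_add, map_smul, h1, GCJ_inv]
  rw [← h2 w (g⁻¹ v), GCJ_inv]

theorem GCJ (hGAU : GAU_stmt) (hXEF : XEF_stmt) : GCJ_stmt := by
  intro n C hC F _ g hg
  refine ⟨fun w v => GCJ_one hGAU C F g hg w v, fun α t v => ?_⟩
  show g (xf α t (g⁻¹ v)) = ex (g (ev C α t)) v
  rw [← hXEF C F α t (g⁻¹ v)]
  exact GCJ_one hGAU C F g hg _ v

end Pool.Agent.EX
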