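import Pool.Agent.helper32.EX.SpecA

set_option autoImplicit false

namespace Pool.Agent.EX

theorem HID (hGAU : GAU_stmt) : HID_stmt := by
  intro n C hC F _ g hg hfix
  obtain ⟨h1, -⟩ := hGAU C F g hg
  have hrt : ∀ i, rt F (sm C i) = (Pi.single i 1 : Fin n → F) := by
    intro i
    funext j
    simp only [rt, sm, Pi.single_apply]
    split_ifs <;> simp
  have hh : ∀ (i : Fin n) (t : F), g ((Pi.single i t, 0) : LV C F) = (Pi.single i t, 0) := by
    intro i t
    have h2 := h1 (ev C (sm C i) 1) (ev C (-(sm C i)) 1)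
    rw [hfix, hfix, br_ev_neg, hrt] at h2
    have h3 : ((Pi.single i t, 0) : LV C F) = (-t) • ((-(((1 : F) * 1) • (Pi.single i 1 : Fin n → F)), 0) : LV C F) := by
      ext j
      · simp only [Prod.smul_fst, Pi.smul_apply, Pi.neg_apply, smul_eq_mul, Pi.single_apply]
        split_ifs <;> simp
      · simp
    rw [h3, map_smul, h2]
  refine LinearEquiv.ext fun v => ?_
  show g v = v
  refine LV_ind (P := fun v => g v = v) ?_ ?_ hh ?_ v
  · exact map_zero g
  · intro u w hu hw
    rw [map_add, hu, hw]
  · intro α t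
    rw [ev_eq, map_smul, hfix]

end Pool.Agent.EX
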