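import Pool.Agent.helper32.EX.SpecA

set_option autoImplicit false

namespace Pool.Agent.EX

theorem MCJ (hGCJ : GCJ_stmt) (hXEF : XEF_stmt) : MCJ_stmt := by
  intro n C hC F _ g w hg hm β
  obtain ⟨c, hc, h1⟩ := hm β
  refine ⟨c, hc, fun t => ?_⟩
  refine LinearEquiv.ext fun v => ?_
  have h2 : g (ev C β t) = ev C (w β) (c * t) := by
    rw [ev_eq, map_smul, h1, smul_ev, mul_comm]
  rw [(hGCJ C F g hg).2 β t v, h2, xl_apply]
  exact hXEF C F (w β) (c * t) v

end Pool.Agent.EX
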